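import Mathlib

/-!
# DE XI.3  Ergodicity of independent bits on an infinite group

PROOF.  Let `P` be the product measure, `T q κ = κ (· + q)`; `P.map (T q) = P` (reindexing of the product:
`infinitePi_map_piCongrLeft`, or compare on cylinders by `Measure.eq_infinitePi`).  Let `B` be invariant and
`ε > 0`.  Approximate `B` by a set `C` depending on a finite set `I ⊆ Q` of coordinates: `P (B ∆ C) < ε`
(the measurable cylinders form an algebra generating the sigma-algebra:
`MeasureTheory.Measure.MeasureDense`, `MeasurableSet` approximation lemma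
`exists_measure_symmDiff_lt_of_generateFrom_isSetRing`/`_isSetAlgebra`, or prove with `induction_on_inter`
that the sets approximable by cylinders are all measurable sets).  `Q` infinite: choose `q` with
`(I + q) ∩ I = ∅`.  Then `C` and `T q ⁻¹' C` (depending on `I + q`) are independent, so
`P (C ∩ T q ⁻¹' C) = P(C)²`.  Since `T q ⁻¹' B = B`: `P (B ∆ T q ⁻¹' C) < ε`, so
`|P(B) - P(C ∩ T q ⁻¹' C)| ≤ 2 ε`, `|P(B)² - P(C)²| ≤ 2 ε`: `|P(B) - P(B)²| ≤ 4 ε` for every `ε`, so
`P(B) = P(B)²`.
-/

noncomputable section

open MeasureTheory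

namespace Helper15.DE

/-- the product measure is invariant under shifts (private copy) -/
private theorem bern_shift_aux {Q : Type} [AddCommGroup Q] [Countable Q] (ρ : Measure Bool)
    [IsProbabilityMeasure ρ] (q : Q) :
    (Measure.infinitePi fun _ : Q => ρ).map (fun (κ : Q → Bool) (x : Q) => κ (x + q)) =
      Measure.infinitePi fun _ : Q => ρ :=
  Measure.map_infinitePi_infinitePi_of_inj (P := fun _ : Q => ρ) (f := fun x : Q => x + q)
    (add_left_injective q)

private theorem bern_approx {Q : Type} [AddCommGroup Q] [Countable Q] [Infinite Q] (ρ : Measure Bool)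
    [IsProbabilityMeasure ρ] (B : Set (Q → Bool)) (hB : MeasurableSet B)
    (hinv : ∀ q : Q, (fun (κ : Q → Bool) (x : Q) => κ (x + q)) ⁻¹' B = B) (ε : ℝ) (hε : 0 < ε) :
    |(Measure.infinitePi fun _ : Q => ρ).real B -
      (Measure.infinitePi fun _ : Q => ρ).real B ^ 2| ≤ 4 * ε := by
  classical
  set P : Measure (Q → Bool) := Measure.infinitePi fun _ : Q => ρ with hP
  have hdense : P.MeasureDense (measurableCylinders fun _ : Q => Bool) :=
    Measure.MeasureDense.of_generateFrom_isSetAlgebra_finite P isSetAlgebra_measurableCylinders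
      generateFrom_measurableCylinders.symm
  obtain ⟨C, hC, hBC⟩ := hdense.approx B hB (measure_ne_top P B) ε hε
  obtain ⟨I, S, hS, rfl⟩ := (mem_measurableCylinders C).1 hC
  have hBC' : P.real (symmDiff B (cylinder I S)) < ε := by
    rw [measureReal_def]
    exact (ENNReal.lt_ofReal_iff_toReal_lt (measure_ne_top _ _)).1 hBC
  obtain ⟨q, hq⟩ := Infinite.exists_notMem_finset ((I ×ˢ I).image fun p : Q × Q => p.1 - p.2)
  have hdis : Disjoint I (I.image fun x => x + q) := by
    rw [Finset.disjoint_left]
    intro a ha ha'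
    obtain ⟨b, hb, hab⟩ := Finset.mem_image.1 ha'
    exact hq (Finset.mem_image.2 ⟨(a, b), Finset.mem_product.2 ⟨ha, hb⟩, by simp [← hab]⟩)
  have hTm : Measurable (fun (κ : Q → Bool) (x : Q) => κ (x + q)) :=
    measurable_pi_lambda _ fun x => measurable_pi_apply _
  set C' : Set (Q → Bool) := (fun (κ : Q → Bool) (x : Q) => κ (x + q)) ⁻¹' (cylinder I S) with hC'
  have hCm : MeasurableSet (cylinder (α := fun _ : Q => Bool) I S) := MeasurableSet.cylinder I hS
  have hCm' : MeasurableSet C' := hTm hCm
  have hshift : ∀ D : Set (Q → Bool), MeasurableSet D →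
      P.real ((fun (κ : Q → Bool) (x : Q) => κ (x + q)) ⁻¹' D) = P.real D := by
    intro D hD
    have h := bern_shift_aux ρ q
    rw [← hP] at h
    conv_rhs => rw [← h]
    rw [measureReal_def, measureReal_def, Measure.map_apply hTm hD]
  have hCC : P.real C' = P.real (cylinder I S) := hshift _ hCm
  have hBC2 : P.real (symmDiff B C') < ε := by
    have e : symmDiff B C' =
        (fun (κ : Q → Bool) (x : Q) => κ (x + q)) ⁻¹' (symmDiff B (cylinder I S)) := by
      rw [Set.preimage_symmDiff, hinv q]
    rw [e, hshift _ (hB.symmDiff hCm)]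
    exact hBC'
  have hind : P.real (cylinder I S ∩ C') = P.real (cylinder I S) ^ 2 := by
    have h1 : ProbabilityTheory.iIndepFun (fun (i : Q) (κ : Q → Bool) => κ i) P :=
      ProbabilityTheory.iIndepFun_infinitePi (P := fun _ : Q => ρ) (X := fun _ (b : Bool) => b)
        (fun _ => measurable_id)
    have h2 := h1.indepFun_finset I (I.image fun x => x + q) hdis
      (fun i => measurable_pi_apply i)
    set S' : Set ((I.image fun x => x + q) → Bool) :=
      (fun (f : (I.image fun x => x + q) → Bool) (i : I) =>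
        f ⟨i.1 + q, Finset.mem_image_of_mem _ i.2⟩) ⁻¹' S with hS'
    have hSm' : MeasurableSet S' :=
      (measurable_pi_lambda _ fun i => measurable_pi_apply _) hS
    have h3 := h2.measure_inter_preimage_eq_mul S S' hS hSm'
    have e1 : (fun (a : Q → Bool) (i : I) => a i) ⁻¹' S = cylinder I S := rfl
    have e2 : (fun (a : Q → Bool) (i : (I.image fun x => x + q)) => a i) ⁻¹' S' = C' := rfl
    rw [e1, e2] at h3
    rw [measureReal_def, h3, ENNReal.toReal_mul, ← measureReal_def, ← measureReal_def, hCC]
    ring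
  have hp1 : P.real B ≤ 1 := measureReal_le_one
  have hp0 : 0 ≤ P.real B := measureReal_nonneg
  have hc1 : P.real (cylinder I S) ≤ 1 := measureReal_le_one
  have hc0 : 0 ≤ P.real (cylinder I S) := measureReal_nonneg
  have ha : |P.real B - P.real (cylinder I S)| ≤ P.real (symmDiff B (cylinder I S)) :=
    abs_measureReal_sub_le_measureReal_symmDiff hB.nullMeasurableSet hCm.nullMeasurableSet
  have hb : |P.real B - P.real (cylinder I S ∩ C')| ≤
      P.real (symmDiff B (cylinder I S ∩ C')) :=
    abs_measureReal_sub_le_measureReal_symmDiff hB.nullMeasurableSet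
      (hCm.inter hCm').nullMeasurableSet
  have hsub : symmDiff B (cylinder I S ∩ C') ⊆
      symmDiff B (cylinder I S) ∪ symmDiff B C' := by
    intro κ hκ
    simp only [Set.mem_symmDiff, Set.mem_union, Set.mem_inter_iff] at hκ ⊢
    tauto
  have hb2 : P.real (symmDiff B (cylinder I S ∩ C')) ≤ ε + ε :=
    (measureReal_mono hsub).trans ((measureReal_union_le _ _).trans
      (add_le_add hBC'.le hBC2.le))
  rw [hind] at hb
  have ha' := abs_le.1 (ha.trans hBC'.le)
  have hb' := abs_le.1 (hb.trans hb2)
  rw [abs_le]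
  constructor
  · nlinarith [mul_nonneg hp0 hc0, mul_nonneg (sub_nonneg.2 hp1) hc0, ha'.1, ha'.2, hb'.1, hb'.2]
  · nlinarith [mul_nonneg hp0 hc0, mul_nonneg (sub_nonneg.2 hp1) hc0, ha'.1, ha'.2, hb'.1, hb'.2]

theorem bern_erg {Q : Type} [AddCommGroup Q] [Countable Q] [Infinite Q] (ρ : Measure Bool)
    [IsProbabilityMeasure ρ] (B : Set (Q → Bool)) (hB : MeasurableSet B)
    (hinv : ∀ q : Q, (fun (κ : Q → Bool) (x : Q) => κ (x + q)) ⁻¹' B = B) :
    (Measure.infinitePi fun _ : Q => ρ) B = 0 ∨ (Measure.infinitePi fun _ : Q => ρ) B = 1 := by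
  have h : (Measure.infinitePi fun _ : Q => ρ).real B -
      (Measure.infinitePi fun _ : Q => ρ).real B ^ 2 = 0 := by
    rw [← abs_eq_zero]
    refine le_antisymm (le_of_forall_pos_le_add fun ε hε => ?_) (abs_nonneg _)
    rw [zero_add]
    exact (bern_approx ρ B hB hinv (ε / 4) (by positivity)).trans (by linarith)
  have h2 : (Measure.infinitePi fun _ : Q => ρ).real B *
      (1 - (Measure.infinitePi fun _ : Q => ρ).real B) = 0 := by linarith [h]
  rcases mul_eq_zero.1 h2 with h3 | h3
  · left
    rw [measureReal_def, ENNReal.toReal_eq_zero_iff] at h3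
    exact h3.resolve_right (measure_ne_top _ _)
  · right
    have h4 : (Measure.infinitePi fun _ : Q => ρ).real B = 1 := by linarith
    rw [measureReal_def] at h4
    rwa [ENNReal.toReal_eq_one_iff] at h4

theorem bern_shift {Q : Type} [AddCommGroup Q] [Countable Q] (ρ : Measure Bool)
    [IsProbabilityMeasure ρ] (q : Q) :
    (Measure.infinitePi fun _ : Q => ρ).map (fun (κ : Q → Bool) (x : Q) => κ (x + q)) =
      Measure.infinitePi fun _ : Q => ρ :=
  bern_shift_aux ρ q

end Helper15.DE
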