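import Pool.Agent.Helper10.DE.X.Defs

/-!
# DE XI (V-coordinates): definitions
-/

noncomputable section

open MeasureTheory Filter Topology

namespace Helper15.DE

variable {d : ℕ} {A : Type}

/-- Ergodicity under all shifts: invariant measurable sets have measure `0` or `1`. -/
def Erg [MeasurableSpace A] (μ : Measure (V d → A)) : Prop :=
  ∀ B : Set (V d → A), MeasurableSet B → (∀ v, shift v ⁻¹' B = B) → μ B = 0 ∨ μ B = 1

/-- `Emax st` is strictly concave at `s`. -/
def StrictAt [Fintype A] [MeasurableSpace A] (st : A → V d) (s : Fin d → ℝ) : Prop :=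
  ∀ x ∈ Feas st, ∀ y ∈ Feas st, ∀ t : ℝ, 0 < t → t < 1 → s = t • x + (1 - t) • y → x ≠ y →
    t * Emax st x + (1 - t) * Emax st y < Emax st s

/-- The law of a bit which is `true` with probability `t`. -/
def bern (t : ℝ) : Measure Bool :=
  ENNReal.ofReal t • Measure.dirac true + ENNReal.ofReal (1 - t) • Measure.dirac false

/-- The lines in direction `w`. -/
abbrev Lines (w : V d) := V d ⧸ AddSubgroup.zmultiples w

/-- Independent bits on the lines in direction `st a - st b`: letter `a` with probability `t`,
letter `b` with probability `1 - t`. -/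
def lineMeas [MeasurableSpace A] (st : A → V d) (a b : A) (t : ℝ) : Measure (V d → A) :=
  (Measure.infinitePi fun _ : Lines (st a - st b) => bern t).map
    (fun κ x => if κ (QuotientAddGroup.mk x) = true then a else b)

end Helper15.DE
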