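import Pool.Agent.Helper10.DE.Y.Defs
import Pool.Agent.Helper10.DE.VP.CfgSwap

/-!
# DE XI.5  Uniqueness of completions on an exposed segment of letters

`edge_unique`.  `ω, ω' ∈ Cfg st`, equal off the finite set `F`, all letters of `ω` in `{a, b}`,
`w = st a - st b ≠ 0`.
(1) `mv st ω` and `mv st ω'` are bijections which agree off `F`, so they map `F` onto the same set and
`∑_{x ∈ F} st (ω' x) = ∑_{x ∈ F} st (ω x)`.  Apply `l`: `∑_{x ∈ F} (l·st a - l·st (ω' x)) = 0` with all terms `≥ 0`, so
`ω' x ∈ {a, b}` for `x ∈ F`.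
(2) If `η ∈ Cfg st` has all letters in `{a, b}`, then `η (x + w) = η x` for all `x`: the point
`x + st a = (x + w) + st b` is hit exactly once by `mv st η`, the only candidates are `x` (if `η x = a`) and
`x + w` (if `η (x + w) = b`); as `x ≠ x + w` exactly one holds.
(3) So `ω` and `ω'` are both constant along the lines in direction `w`; every line leaves `F`, so `ω = ω'`.
`edge_pswap`: if `ω ∈ Cfg st` has all letters in `{a, b}` and `Same st F p q`, then `pswap F p q ω = ω`
(`cfg_pswap` and `edge_unique`; `pswap` changes only sites in `F`).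
-/

noncomputable section

open MeasureTheory Filter Topology

namespace Helper15.DE

variable {d : ℕ} {A : Type}

theorem edge_line (st : A → V d) (a b : A) (hab : st a ≠ st b) (η : V d → A)
    (hη : η ∈ Cfg st) (h : ∀ x, η x = a ∨ η x = b) (x : V d) :
    η (x + (st a - st b)) = η x := by
  have hb : Function.Bijective (mv st η) := hη
  have hab' : a ≠ b := fun e => hab (by rw [e])
  have hw : st a - st b ≠ 0 := sub_ne_zero.2 hab
  rcases h x with hx | hx
  · rcases h (x + (st a - st b)) with h1 | h1
    · rw [h1, hx]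
    · exfalso
      have e1 : mv st η (x + (st a - st b)) = mv st η x := by
        unfold mv
        rw [h1, hx]
        abel
      have e2 := hb.1 e1
      exact hw (by simpa using e2)
  · obtain ⟨z, hz⟩ := hb.2 (x + st a)
    unfold mv at hz
    rcases h z with h1 | h1
    · exfalso
      rw [h1] at hz
      have e2 : z = x := add_right_cancel hz
      rw [e2, hx] at h1
      exact hab' h1.symm
    · rw [h1] at hz
      have e2 : z = x + (st a - st b) := by
        rw [← add_sub_assoc, ← hz, add_sub_cancel_right]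
      rw [← e2, h1, hx]

theorem edge_unique (st : A → V d) (a b : A) (hab : st a ≠ st b) (l : Fin d → ℝ)
    (heq : ∑ i, l i * (st b i : ℝ) = ∑ i, l i * (st a i : ℝ))
    (h : ∀ c, c ≠ a → c ≠ b → ∑ i, l i * (st c i : ℝ) < ∑ i, l i * (st a i : ℝ))
    (ω ω' : V d → A) (hω : ω ∈ Cfg st) (hω' : ω' ∈ Cfg st) (F : Finset (V d))
    (hF : ∀ x, x ∉ F → ω' x = ω x) (hl : ∀ x, ω x = a ∨ ω x = b) : ω' = ω := by
  classical
  have hb : Function.Bijective (mv st ω) := hω
  have hb' : Function.Bijective (mv st ω') := hω'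
  have hw : st a - st b ≠ 0 := sub_ne_zero.2 hab
  have hmv : ∀ x, x ∉ F → mv st ω' x = mv st ω x := fun x hx => by
    unfold mv
    rw [hF x hx]
  have hsame : Same st F ω ω' := by
    refine ⟨hb.1.injOn, hb'.1.injOn, ?_⟩
    ext y
    constructor
    · intro hy
      obtain ⟨x, hx, rfl⟩ := Finset.mem_image.1 hy
      obtain ⟨z, hz⟩ := hb'.2 (mv st ω x)
      refine Finset.mem_image.2 ⟨z, ?_, hz⟩
      by_contra hzF
      rw [hmv z hzF] at hz
      exact hzF (by rw [hb.1 hz]; exact hx)
    · intro hy
      obtain ⟨x, hx, rfl⟩ := Finset.mem_image.1 hy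
      obtain ⟨z, hz⟩ := hb.2 (mv st ω' x)
      refine Finset.mem_image.2 ⟨z, ?_, hz⟩
      by_contra hzF
      rw [← hmv z hzF] at hz
      exact hzF (by rw [hb'.1 hz]; exact hx)
  set L : A → ℝ := fun c => ∑ i, l i * (st c i : ℝ) with hL
  have hLle : ∀ c, L c ≤ L a := by
    intro c
    by_cases h1 : c = a
    · rw [h1]
    · by_cases h2 : c = b
      · rw [h2]
        exact heq.le
      · exact (h c h1 h2).le
  have hLω : ∀ x, L (ω x) = L a := by
    intro x
    rcases hl x with h1 | h1
    · rw [h1]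
    · rw [h1]
      exact heq
  have hsum : ∑ x ∈ F, L (ω x) = ∑ x ∈ F, L (ω' x) := by
    have e1 : ∀ c : V d → A, ∑ x ∈ F, L (c x) = ∑ i, l i * ∑ x ∈ F, chg st (c x) i := by
      intro c
      simp only [hL, chg]
      rw [Finset.sum_comm]
      refine Finset.sum_congr rfl fun i _ => ?_
      rw [Finset.mul_sum]
    rw [e1 ω, e1 ω']
    refine Finset.sum_congr rfl fun i _ => ?_
    rw [same_charge st F ω ω' hsame i]
  have hzero : ∑ x ∈ F, (L a - L (ω' x)) = 0 := by
    rw [Finset.sum_sub_distrib, ← hsum, ← Finset.sum_sub_distrib]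
    refine Finset.sum_eq_zero fun x _ => ?_
    rw [hLω x, sub_self]
  have hl' : ∀ x, ω' x = a ∨ ω' x = b := by
    intro x
    by_cases hx : x ∈ F
    · have e1 := (Finset.sum_eq_zero_iff_of_nonneg fun y _ => sub_nonneg.2 (hLle (ω' y))).1 hzero x hx
      by_contra hcon
      rw [not_or] at hcon
      have e2 : L (ω' x) < L a := h _ hcon.1 hcon.2
      linarith
    · rw [hF x hx]
      exact hl x
  have hit : ∀ η : V d → A, η ∈ Cfg st → (∀ x, η x = a ∨ η x = b) → ∀ (n : ℕ) (x : V d),
      η (x + n • (st a - st b)) = η x := by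
    intro η h1 h2 n
    induction n with
    | zero =>
      intro x
      rw [zero_smul, add_zero]
    | succ n ih =>
      intro x
      rw [succ_nsmul, ← add_assoc, edge_line st a b hab η h1 h2, ih]
  funext x
  have hex : ∃ n : ℕ, x + n • (st a - st b) ∉ F := by
    by_contra hcon
    push Not at hcon
    have hinj : Function.Injective fun n : ℕ => x + n • (st a - st b) := by
      intro n m hnm
      have e1 : n • (st a - st b) = m • (st a - st b) := add_left_cancel hnm
      obtain ⟨i, hi⟩ := Function.ne_iff.1 hw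
      have e2 := congrFun e1 i
      simp only [Pi.smul_apply, nsmul_eq_mul] at e2
      have e3 : ((n : ℕ) : ℤ) = ((m : ℕ) : ℤ) := by
        refine mul_right_cancel₀ hi ?_
        exact e2
      exact_mod_cast e3
    exact (Set.infinite_of_injective_forall_mem hinj fun n => Finset.mem_coe.2 (hcon n))
      F.finite_toSet
  obtain ⟨n, hn⟩ := hex
  rw [← hit ω' hω' hl' n x, ← hit ω hω hl n x, hF _ hn]

theorem edge_pswap (st : A → V d) (a b : A) (hab : st a ≠ st b) (l : Fin d → ℝ)
    (heq : ∑ i, l i * (st b i : ℝ) = ∑ i, l i * (st a i : ℝ))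
    (h : ∀ c, c ≠ a → c ≠ b → ∑ i, l i * (st c i : ℝ) < ∑ i, l i * (st a i : ℝ))
    (ω : V d → A) (hω : ω ∈ Cfg st) (hl : ∀ x, ω x = a ∨ ω x = b) (F : Finset (V d))
    (p q : V d → A) (hpq : Same st F p q) : pswap F p q ω = ω := by
  classical
  refine edge_unique st a b hab l heq h ω (pswap F p q ω) hω (cfg_pswap st F p q hpq ω hω) F ?_ hl
  intro x hx
  unfold pswap
  split_ifs <;> simp [hx]

end Helper15.DE
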