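import Pool.Agent.Helper10.DE.Y.Defs
import Pool.Agent.Helper10.DE.Y.BernErg
import Pool.Agent.Helper10.DE.CP.Emax
import Pool.Agent.Helper15.DE.PhMeas

/-!
# DE XI.4  Independent bits on lines

`w = st a - st b ≠ 0`, `Q = Lines w = ℤ^d / ℤ w`, `G κ x = if κ [x] then a else b`, `lineMeas = P.map G`.
* `lines_infinite` (`d ≥ 2`): some unit vector `e` is not proportional to `w` (if `w = 0` any); the classes
  `[n e]`, `n ∈ ℕ`, are different: `(n - m) e = k w` implies `n = m`.
* `measurable` : every coordinate of `G` is a function of one coordinate of `κ`.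
* `line_supp`: `G κ x ∈ {a, b}`, `G κ (x + w) = G κ x` (all `κ`).
* `line_inv`: `shift v (G κ) = G (κ (· + [v]))`, `bern_shift`.  `G κ ∈ Cfg st`: on the line `[x]` the map is the
  translation by `st a` or by `st b`, both map the line `[x]` onto the line `[x + st a] = [x + st b]`; and
  `q ↦ q + [st a]` is a bijection of `Q`.
* `line_mean`: `∫ chg st (ω 0) i = t st a i + (1 - t) st b i` (`mean_eq` or directly).
* `line_erg`: for invariant `B`, `G ⁻¹' B` is invariant under `κ ↦ κ (· + q)` for all `q = [v]`; `bern_erg`.
-/

noncomputable section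

open MeasureTheory Filter Topology

namespace Helper15.DE

variable {d : ℕ} {A : Type} [Fintype A] [MeasurableSpace A] [MeasurableSingletonClass A]

theorem bern_prob (t : ℝ) (h0 : 0 ≤ t) (h1 : t ≤ 1) : IsProbabilityMeasure (bern t) := by
  constructor
  unfold bern
  rw [Measure.add_apply, Measure.smul_apply, Measure.smul_apply, measure_univ, measure_univ,
    smul_eq_mul, smul_eq_mul, mul_one, mul_one, ← ENNReal.ofReal_add h0 (by linarith)]
  simp

theorem lines_infinite (hd : 2 ≤ d) (w : V d) : Infinite (Lines w) := by
  have key : ∀ (i j : Fin d), i ≠ j → w j ≠ 0 ∨ w i = 0 → Infinite (Lines w) := by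
    intro i j hij h
    refine Infinite.of_injective
      (fun n : ℕ => (QuotientAddGroup.mk ((n : ℤ) • (Pi.single i 1 : V d)) : Lines w)) ?_
    intro n m hnm
    have h1 : -((n : ℤ) • (Pi.single i 1 : V d)) + (m : ℤ) • (Pi.single i 1 : V d) ∈
        AddSubgroup.zmultiples w := QuotientAddGroup.eq.1 hnm
    obtain ⟨k, hk⟩ := AddSubgroup.mem_zmultiples_iff.1 h1
    have hki := congrFun hk i
    have hkj := congrFun hk j
    simp only [Pi.smul_apply, Pi.add_apply, Pi.neg_apply, Pi.single_eq_same, smul_eq_mul,
      mul_one] at hki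
    simp only [Pi.smul_apply, Pi.add_apply, Pi.neg_apply, Pi.single_eq_of_ne hij.symm,
      smul_eq_mul, mul_zero, neg_zero, add_zero] at hkj
    rcases h with h | h
    · have hk0 : k = 0 := by
        rcases mul_eq_zero.1 hkj with h2 | h2
        · exact h2
        · exact absurd h2 h
      rw [hk0, zero_mul] at hki
      omega
    · rw [h, mul_zero] at hki
      omega
  have h0 : (⟨0, by omega⟩ : Fin d) ≠ ⟨1, by omega⟩ := by
    intro h
    have := congrArg Fin.val h
    simp at this
  by_cases hw : w ⟨1, by omega⟩ = 0
  · exact key ⟨1, by omega⟩ ⟨0, by omega⟩ h0.symm (Or.inr hw)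
  · exact key ⟨0, by omega⟩ ⟨1, by omega⟩ h0 (Or.inl hw)

private theorem lm_meas (w : V d) (a b : A) : Measurable (fun (κ : Lines w → Bool) (x : V d) =>
    if κ (QuotientAddGroup.mk x) = true then a else b) := by
  refine measurable_pi_lambda _ fun x => ?_
  have h : Measurable (fun c : Bool => if c = true then a else b) := measurable_of_countable _
  exact h.comp (measurable_pi_apply (QuotientAddGroup.mk x : Lines w))

private theorem lm_countable (w : V d) : Countable (Lines w) :=
  Function.Surjective.countable (QuotientAddGroup.mk_surjective (s := AddSubgroup.zmultiples w))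

private theorem lm_mk (w x : V d) : (QuotientAddGroup.mk (x + w) : Lines w) =
    QuotientAddGroup.mk x := by
  rw [QuotientAddGroup.eq]
  rw [AddSubgroup.mem_zmultiples_iff]
  exact ⟨-1, by simp⟩

private theorem lm_step (st : A → V d) (a b : A) :
    (QuotientAddGroup.mk (st a) : Lines (st a - st b)) = QuotientAddGroup.mk (st b) := by
  rw [QuotientAddGroup.eq]
  rw [AddSubgroup.mem_zmultiples_iff]
  exact ⟨-1, by simp; abel⟩

private theorem lm_cfg (st : A → V d) (a b : A) (κ : Lines (st a - st b) → Bool) :
    (fun x : V d => if κ (QuotientAddGroup.mk x) = true then a else b) ∈ Cfg st := by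
  have hst : ∀ x : V d, (QuotientAddGroup.mk
      (x + st (if κ (QuotientAddGroup.mk x) = true then a else b)) : Lines (st a - st b)) =
      QuotientAddGroup.mk x + QuotientAddGroup.mk (st b) := by
    intro x
    rw [QuotientAddGroup.mk_add]
    split_ifs
    · rw [lm_step]
    · rfl
  constructor
  · intro x y hxy
    have hxy' : x + st (if κ (QuotientAddGroup.mk x) = true then a else b) =
        y + st (if κ (QuotientAddGroup.mk y) = true then a else b) := hxy
    have h1 : (QuotientAddGroup.mk x : Lines (st a - st b)) = QuotientAddGroup.mk y := by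
      have h2 := congrArg (QuotientAddGroup.mk : V d → Lines (st a - st b)) hxy'
      rw [hst, hst] at h2
      exact add_right_cancel h2
    rw [h1] at hxy'
    exact add_right_cancel hxy'
  · intro z
    by_cases hκ : κ (QuotientAddGroup.mk z - QuotientAddGroup.mk (st b)) = true
    · refine ⟨z - st a, ?_⟩
      have h1 : (QuotientAddGroup.mk (z - st a) : Lines (st a - st b)) =
          QuotientAddGroup.mk z - QuotientAddGroup.mk (st b) := by
        rw [QuotientAddGroup.mk_sub, lm_step]
      show (z - st a) + st (if κ (QuotientAddGroup.mk (z - st a)) = true then a else b) = z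
      rw [h1, if_pos hκ, sub_add_cancel]
    · refine ⟨z - st b, ?_⟩
      have h1 : (QuotientAddGroup.mk (z - st b) : Lines (st a - st b)) =
          QuotientAddGroup.mk z - QuotientAddGroup.mk (st b) := by
        rw [QuotientAddGroup.mk_sub]
      show (z - st b) + st (if κ (QuotientAddGroup.mk (z - st b)) = true then a else b) = z
      rw [h1, if_neg hκ, sub_add_cancel]

private theorem lm_shift (w : V d) (a b : A) (v : V d) (κ : Lines w → Bool) :
    shift v (fun x : V d => if κ (QuotientAddGroup.mk x) = true then a else b) =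
      fun x : V d => if (fun q : Lines w => κ (q + QuotientAddGroup.mk v))
        (QuotientAddGroup.mk x) = true then a else b := rfl

theorem line_supp (st : A → V d) (a b : A) (t : ℝ) (h0 : 0 ≤ t) (h1 : t ≤ 1) :
    ∀ᵐ ω ∂(lineMeas st a b t), (∀ x, ω x = a ∨ ω x = b) ∧
      ∀ x, ω (x + (st a - st b)) = ω x := by
  haveI := bern_prob t h0 h1
  have hm : MeasurableSet {ω : V d → A | (∀ x, ω x = a ∨ ω x = b) ∧
      ∀ x, ω (x + (st a - st b)) = ω x} := by
    have h1 : {ω : V d → A | (∀ x, ω x = a ∨ ω x = b) ∧ ∀ x, ω (x + (st a - st b)) = ω x} =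
        (⋂ x : V d, ({ω | ω x = a} ∪ {ω | ω x = b})) ∩
        ⋂ x : V d, {ω | ω (x + (st a - st b)) = ω x} := by
      ext ω
      simp only [Set.mem_ofPred_eq, Set.mem_inter_iff, Set.mem_iInter, Set.mem_union]
    rw [h1]
    refine (MeasurableSet.iInter fun x => MeasurableSet.union ?_ ?_).inter
      (MeasurableSet.iInter fun x => ?_)
    · exact measurableSet_eq_fun (measurable_pi_apply x) measurable_const
    · exact measurableSet_eq_fun (measurable_pi_apply x) measurable_const
    · exact measurableSet_eq_fun (measurable_pi_apply _) (measurable_pi_apply x)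
  unfold lineMeas
  rw [ae_map_iff (lm_meas _ a b).aemeasurable hm]
  refine Filter.Eventually.of_forall fun κ => ⟨fun x => ?_, fun x => ?_⟩
  · show (if _ then a else b) = a ∨ (if _ then a else b) = b
    split_ifs
    · exact Or.inl rfl
    · exact Or.inr rfl
  · show (if κ (QuotientAddGroup.mk (x + (st a - st b))) = true then a else b) =
      if κ (QuotientAddGroup.mk x) = true then a else b
    rw [lm_mk]

theorem line_inv (st : A → V d) (a b : A) (t : ℝ) (h0 : 0 ≤ t) (h1 : t ≤ 1) :
    Inv (Cfg st) (lineMeas st a b t) := by
  haveI := bern_prob t h0 h1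
  refine ⟨?_, ?_, ?_⟩
  · exact Measure.isProbabilityMeasure_map (lm_meas _ a b).aemeasurable
  · intro v
    unfold lineMeas
    rw [Measure.map_map (measurable_shift v) (lm_meas _ a b)]
    have hT : Measurable (fun (κ : Lines (st a - st b) → Bool) (q : Lines (st a - st b)) =>
        κ (q + QuotientAddGroup.mk v)) :=
      measurable_pi_lambda _ fun q => measurable_pi_apply _
    have h1 : (shift v : (V d → A) → V d → A) ∘
        (fun (κ : Lines (st a - st b) → Bool) (x : V d) =>
          if κ (QuotientAddGroup.mk x) = true then a else b) =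
        (fun (κ : Lines (st a - st b) → Bool) (x : V d) =>
          if κ (QuotientAddGroup.mk x) = true then a else b) ∘
        (fun (κ : Lines (st a - st b) → Bool) (q : Lines (st a - st b)) =>
          κ (q + QuotientAddGroup.mk v)) := by
      funext κ
      exact lm_shift _ a b v κ
    haveI := lm_countable (st a - st b)
    rw [h1, ← Measure.map_map (lm_meas _ a b) hT, bern_shift]
  · unfold lineMeas
    rw [ae_map_iff (p := fun ω => ω ∈ Cfg st) (lm_meas _ a b).aemeasurable (measurableSet_Cfg st)]
    exact Filter.Eventually.of_forall fun κ => lm_cfg st a b κ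

theorem line_mean (st : A → V d) (a b : A) (hab : a ≠ b) (t : ℝ) (h0 : 0 ≤ t) (h1 : t ≤ 1)
    (i : Fin d) :
    mean (chg st) (lineMeas st a b t) i = t * (st a i : ℝ) + (1 - t) * (st b i : ℝ) := by
  haveI := bern_prob t h0 h1
  unfold mean lineMeas
  have hg : Measurable (fun ω : V d → A => chg st (ω 0) i) := by
    have h : Measurable (fun c : A => chg st c i) := measurable_of_countable _
    exact h.comp (measurable_pi_apply 0)
  rw [integral_map (lm_meas _ a b).aemeasurable hg.aestronglyMeasurable]
  have hf : Measurable (fun c : Bool => chg st (if c = true then a else b) i) :=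
    measurable_of_countable _
  have h2 : ∫ κ : Lines (st a - st b) → Bool, chg st
      (if κ (QuotientAddGroup.mk (0 : V d)) = true then a else b) i
      ∂(Measure.infinitePi fun _ : Lines (st a - st b) => bern t) =
      ∫ c, chg st (if c = true then a else b) i ∂(bern t) := by
    have h3 : bern t = (Measure.infinitePi fun _ : Lines (st a - st b) => bern t).map
        (fun κ => κ (QuotientAddGroup.mk (0 : V d))) :=
      (Measure.infinitePi_map_eval (fun _ : Lines (st a - st b) => bern t)
        (QuotientAddGroup.mk (0 : V d))).symm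
    conv_rhs => rw [h3]
    rw [integral_map (measurable_pi_apply _).aemeasurable hf.aestronglyMeasurable]
  rw [h2]
  unfold bern
  rw [integral_add_measure, integral_smul_measure, integral_smul_measure, integral_dirac,
    integral_dirac, ENNReal.toReal_ofReal h0, ENNReal.toReal_ofReal (by linarith)]
  · simp [chg]
  · exact (integrable_dirac (by simp)).smul_measure ENNReal.ofReal_ne_top
  · exact (integrable_dirac (by simp)).smul_measure ENNReal.ofReal_ne_top

theorem line_erg (hd : 2 ≤ d) (st : A → V d) (a b : A) (t : ℝ) (h0 : 0 ≤ t) (h1 : t ≤ 1) :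
    Erg (lineMeas st a b t) := by
  haveI := bern_prob t h0 h1
  haveI := lines_infinite hd (st a - st b)
  haveI := lm_countable (st a - st b)
  intro B hB hinv
  unfold lineMeas
  rw [Measure.map_apply (lm_meas _ a b) hB]
  refine bern_erg (bern t) _ (lm_meas _ a b hB) fun q => ?_
  obtain ⟨v, rfl⟩ := QuotientAddGroup.mk_surjective q
  ext κ
  have h1 := Set.ext_iff.1 (hinv v)
    (fun x : V d => if κ (QuotientAddGroup.mk x) = true then a else b)
  rw [Set.mem_preimage, lm_shift] at h1
  exact h1

end Helper15.DE
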