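import Pool.Agent.Helper10.DE.Y.Defs
import Pool.Agent.Helper10.DE.X.Strict3

/-!
# DE XI.2  Strictness at every point off the edges

PROOF.  In current coordinates (`fromV`, `toV`, `feas3`): let `s ∈ octa \ octaEdges`, `x, y ∈ octa`,
`s = t x + (1 - t) y`, `0 < t < 1`, `x ≠ y`.  Put `x' = (s + x)/2`, `y' = (s + y)/2`; `s = t x' + (1 - t) y'`,
`x' ≠ y'`.  `x' ∉ octaEdges`: if `|x'|₁ = 1` with `x' k = 0` then from `1 = ∑ |s i + x i|/2 ≤ (|s|₁ + |x|₁)/2 ≤ 1` one gets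
`|s|₁ = 1`, `|s i + x i| = |s i| + |x i|`, and `s k + x k = 0`, so `s k = 0`: `s ∈ octaEdges`, contradiction.  Same for
`y'`.  By strict concavity `t E x' + (1 - t) E y' < E s` and by concavity (`ethree_concave`)
`E x' ≥ (E s + E x)/2`, `E y' ≥ (E s + E y)/2`; so `(E s + t E x + (1 - t) E y)/2 < E s`, the claim.
-/

noncomputable section

open MeasureTheory Filter Topology

namespace Helper15.DE

namespace StrictAt3Aux

open Strict3Aux

/-- the midpoint of a point off the edges and a point of the octahedron is off the edges -/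
theorem mid (s x : Fin 3 → ℝ) (hs : s ∈ octa \ octaEdges) (hx : x ∈ octa) :
    (1 / 2 : ℝ) • s + (1 / 2 : ℝ) • x ∈ octa \ octaEdges := by
  refine ⟨octa_combo s x hs.1 hx _ _ (by norm_num) (by norm_num) (by norm_num), ?_⟩
  rintro ⟨h1, k, hk⟩
  obtain ⟨hs1, hs2⟩ := hs
  have hs1' : |s 0| + |s 1| + |s 2| ≤ 1 := hs1
  have hx1' : |x 0| + |x 1| + |x 2| ≤ 1 := hx
  simp only [Pi.add_apply, Pi.smul_apply, smul_eq_mul] at h1 hk
  have t0 := abs_combo (1 / 2) (1 / 2) (s 0) (x 0) (by norm_num) (by norm_num)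
  have t1 := abs_combo (1 / 2) (1 / 2) (s 1) (x 1) (by norm_num) (by norm_num)
  have t2 := abs_combo (1 / 2) (1 / 2) (s 2) (x 2) (by norm_num) (by norm_num)
  have n0 := abs_nonneg (s 0)
  have n1 := abs_nonneg (s 1)
  have n2 := abs_nonneg (s 2)
  have m0 := abs_nonneg (x 0)
  have m1 := abs_nonneg (x 1)
  have m2 := abs_nonneg (x 2)
  have hS : |s 0| + |s 1| + |s 2| = 1 := by linarith
  refine hs2 ⟨hS, k, ?_⟩
  have hk' : |1 / 2 * s k + 1 / 2 * x k| = 0 := by rw [hk, abs_zero]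
  have hz : |s k| ≤ 0 := by
    fin_cases k
    · have hk2 : |1 / 2 * s 0 + 1 / 2 * x 0| = 0 := hk'
      show |s 0| ≤ 0
      linarith
    · have hk2 : |1 / 2 * s 1 + 1 / 2 * x 1| = 0 := hk'
      show |s 1| ≤ 0
      linarith
    · have hk2 : |1 / 2 * s 2 + 1 / 2 * x 2| = 0 := hk'
      show |s 2| ≤ 0
      linarith
  exact abs_nonpos_iff.1 hz

theorem mem_octa {x : Fin 3 → ℝ} (hx : x ∈ Feas st3) : fromV x ∈ octa := by
  rw [feas3] at hx
  exact hx

end StrictAt3Aux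

theorem strictAt3 (h : StrictConcaveOn ℝ (octa \ octaEdges) Ethree) (s : Fin 3 → ℝ)
    (hs : s ∈ octa \ octaEdges) : StrictAt st3 (toV s) := by
  intro x hx y hy t ht0 ht1 hst hxy
  have hX := StrictAt3Aux.mem_octa hx
  have hY := StrictAt3Aux.mem_octa hy
  have ex : toV (fromV x) = x := toV_fromV x
  have ey : toV (fromV y) = y := toV_fromV y
  have hs' : s = t • fromV x + (1 - t) • fromV y := by
    apply Strict3Aux.toV_inj
    rw [Strict3Aux.toV_combo _ _ t (1 - t) (by ring), ex, ey]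
    exact hst
  have hne : fromV x ≠ fromV y := fun h => hxy (by rw [← ex, ← ey, h])
  have hX' := StrictAt3Aux.mid s (fromV x) hs hX
  have hY' := StrictAt3Aux.mid s (fromV y) hs hY
  have hne' : (1 / 2 : ℝ) • s + (1 / 2 : ℝ) • fromV x ≠ (1 / 2 : ℝ) • s + (1 / 2 : ℝ) • fromV y := by
    intro h
    apply hne
    have h1 : (1 / 2 : ℝ) • fromV x = (1 / 2 : ℝ) • fromV y := add_left_cancel h
    exact smul_right_injective _ (by norm_num : (1 / 2 : ℝ) ≠ 0) h1
  have h1 := h.2 hX' hY' hne' ht0 (sub_pos.2 ht1) (by ring)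
  have h2 := ethree_concave.2 hs.1 hX (by norm_num : (0 : ℝ) ≤ 1 / 2)
    (by norm_num : (0 : ℝ) ≤ 1 / 2) (by norm_num)
  have h3 := ethree_concave.2 hs.1 hY (by norm_num : (0 : ℝ) ≤ 1 / 2)
    (by norm_num : (0 : ℝ) ≤ 1 / 2) (by norm_num)
  have e1 : t • ((1 / 2 : ℝ) • s + (1 / 2 : ℝ) • fromV x)
      + (1 - t) • ((1 / 2 : ℝ) • s + (1 / 2 : ℝ) • fromV y) = s := by
    have e2 : t • ((1 / 2 : ℝ) • s + (1 / 2 : ℝ) • fromV x)
        + (1 - t) • ((1 / 2 : ℝ) • s + (1 / 2 : ℝ) • fromV y)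
        = (1 / 2 : ℝ) • s + (1 / 2 : ℝ) • (t • fromV x + (1 - t) • fromV y) := by
      module
    rw [e2, ← hs']
    module
  rw [e1] at h1
  simp only [smul_eq_mul] at h1 h2 h3
  have e3 : Ethree (fromV x) = Emax st3 x := by unfold Ethree; rw [ex]
  have e4 : Ethree (fromV y) = Emax st3 y := by unfold Ethree; rw [ey]
  rw [e3] at h2
  rw [e4] at h3
  have h2' := mul_le_mul_of_nonneg_left h2 ht0.le
  have h3' := mul_le_mul_of_nonneg_left h3 (sub_nonneg.2 ht1.le)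
  show t * Emax st3 x + (1 - t) * Emax st3 y < Ethree s
  nlinarith

end Helper15.DE
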