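import Pool.Agent.Helper10.DE.Y.ErgMax
import Pool.Agent.Helper10.DE.Y.StrictAt3
import Pool.Agent.Helper10.DE.Y.LineMeas
import Pool.Agent.Helper10.DE.Y.EdgeUnique
import Pool.Agent.Helper10.DE.X.EdgeZero
import Pool.Agent.Helper10.DE.VP.CfgSwap

/-!
# DE XI.6  Ergodic maximizers invariant under all exchanges of patterns

PROOF of `exists_erg_gibbs`.
Case `s ∉ octaEdges`: `strict3`, `strictAt3`, `feas3` (`toV s` is feasible: `nV (toV s) = |s|₁ ≤ 1`),
`exists_erg_max`; the invariance under `pswap F a b` is `vp_cfg`.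
Case `s ∈ octaEdges`: `edge_letters`: letters `a ≠ b`, a functional `l`, and `t ∈ [0,1]` with
`toV s = t st3 a + (1 - t) st3 b`.  `ν = lineMeas st3 a b t`: `line_inv`, `line_mean`, `line_erg`;
`0 ≤ hent ν ≤ Emax st3 (toV s) = Ethree s = 0` (`le_emax`, `ethree_edges`), so `hent ν = Ethree s`; and
`pswap F p q ω = ω` for almost all `ω` (`edge_pswap`, `line_supp`), so `ν.map (pswap F p q) = ν`
(`Measure.map_congr`).
PROOF of `edge_letters`: directions `e₁, -e₁, e₂, -e₂, e₃, -e₃` for the letters `0..5`.  Let `s k = 0`, `i ≠ j` the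
other coordinates; `a` = letter of `sign(s i) e_i`, `b` = letter of `sign(s j) e_j` (any sign if zero),
`t = |s i|`, `1 - t = |s j|`.  For signs `ε_i, ε_j` take `l = ε_i r_i + ε_j r_j`, `r_0 = (-1,-1,-1)`, `r_1 = (1,-1,0)`,
`r_2 = (0,0,1)` (the linear part of `fromV`): `l·st3 c` = `ε_i (dir c)_i + ε_j (dir c)_j - const`.  Twelve cases
(`fin_cases`, `decide`, `norm_num`).
-/

noncomputable section

open MeasureTheory Filter Topology

namespace Helper15.DE

theorem edge_letters (s : Fin 3 → ℝ) (hs : s ∈ octaEdges) :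
    ∃ (a b : Fin 6) (l : Fin 3 → ℝ) (t : ℝ), a ≠ b ∧ st3 a ≠ st3 b ∧ 0 ≤ t ∧ t ≤ 1 ∧
      (∀ i, toV s i = t * (st3 a i : ℝ) + (1 - t) * (st3 b i : ℝ)) ∧
      (∑ i, l i * (st3 b i : ℝ) = ∑ i, l i * (st3 a i : ℝ)) ∧
      (∀ c, c ≠ a → c ≠ b → ∑ i, l i * (st3 c i : ℝ) < ∑ i, l i * (st3 a i : ℝ)) := by
  obtain ⟨hsum, k, hk⟩ := hs
  have h0 := abs_nonneg (s 0)
  have h1 := abs_nonneg (s 1)
  have h2 := abs_nonneg (s 2)
  fin_cases k
  · have hk' : s 0 = 0 := hk
    rw [hk', abs_zero] at hsum
    rcases le_total 0 (s 1) with hi | hi <;> rcases le_total 0 (s 2) with hj | hj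
    · rw [abs_of_nonneg hi, abs_of_nonneg hj] at hsum
      refine ⟨2, 4, ![1, -1, 1], s 1, by decide, by decide, by linarith, by linarith, ?_, ?_, ?_⟩
      · intro i
        fin_cases i <;> simp [toV, st3] <;> linarith
      · simp [st3, Fin.sum_univ_three]
      · intro c hc1 hc2
        fin_cases c <;> simp_all [st3, Fin.sum_univ_three]
    · rw [abs_of_nonneg hi, abs_of_nonpos hj] at hsum
      refine ⟨2, 5, ![1, -1, -1], s 1, by decide, by decide, by linarith, by linarith, ?_, ?_, ?_⟩
      · intro i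
        fin_cases i <;> simp [toV, st3] <;> linarith
      · simp [st3, Fin.sum_univ_three]
      · intro c hc1 hc2
        fin_cases c <;> simp_all [st3, Fin.sum_univ_three]
    · rw [abs_of_nonpos hi, abs_of_nonneg hj] at hsum
      refine ⟨3, 4, ![-1, 1, 1], -s 1, by decide, by decide, by linarith, by linarith, ?_, ?_, ?_⟩
      · intro i
        fin_cases i <;> simp [toV, st3] <;> linarith
      · simp [st3, Fin.sum_univ_three]
      · intro c hc1 hc2
        fin_cases c <;> simp_all [st3, Fin.sum_univ_three]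
    · rw [abs_of_nonpos hi, abs_of_nonpos hj] at hsum
      refine ⟨3, 5, ![-1, 1, -1], -s 1, by decide, by decide, by linarith, by linarith, ?_, ?_, ?_⟩
      · intro i
        fin_cases i <;> simp [toV, st3] <;> linarith
      · simp [st3, Fin.sum_univ_three]
      · intro c hc1 hc2
        fin_cases c <;> simp_all [st3, Fin.sum_univ_three]
  · have hk' : s 1 = 0 := hk
    rw [hk', abs_zero] at hsum
    rcases le_total 0 (s 0) with hi | hi <;> rcases le_total 0 (s 2) with hj | hj
    · rw [abs_of_nonneg hi, abs_of_nonneg hj] at hsum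
      refine ⟨0, 4, ![-1, -1, 0], s 0, by decide, by decide, by linarith, by linarith, ?_, ?_, ?_⟩
      · intro i
        fin_cases i <;> simp [toV, st3] <;> linarith
      · simp [st3, Fin.sum_univ_three]
      · intro c hc1 hc2
        fin_cases c <;> simp_all [st3, Fin.sum_univ_three]
    · rw [abs_of_nonneg hi, abs_of_nonpos hj] at hsum
      refine ⟨0, 5, ![-1, -1, -2], s 0, by decide, by decide, by linarith, by linarith, ?_, ?_, ?_⟩
      · intro i
        fin_cases i <;> simp [toV, st3] <;> linarith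
      · simp [st3, Fin.sum_univ_three]
        norm_num
      · intro c hc1 hc2
        fin_cases c <;> simp_all [st3, Fin.sum_univ_three]
    · rw [abs_of_nonpos hi, abs_of_nonneg hj] at hsum
      refine ⟨1, 4, ![1, 1, 2], -s 0, by decide, by decide, by linarith, by linarith, ?_, ?_, ?_⟩
      · intro i
        fin_cases i <;> simp [toV, st3] <;> linarith
      · simp [st3, Fin.sum_univ_three]
        norm_num
      · intro c hc1 hc2
        fin_cases c <;> simp_all [st3, Fin.sum_univ_three]
    · rw [abs_of_nonpos hi, abs_of_nonpos hj] at hsum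
      refine ⟨1, 5, ![1, 1, 0], -s 0, by decide, by decide, by linarith, by linarith, ?_, ?_, ?_⟩
      · intro i
        fin_cases i <;> simp [toV, st3] <;> linarith
      · simp [st3, Fin.sum_univ_three]
      · intro c hc1 hc2
        fin_cases c <;> simp_all [st3, Fin.sum_univ_three]
  · have hk' : s 2 = 0 := hk
    rw [hk', abs_zero] at hsum
    rcases le_total 0 (s 0) with hi | hi <;> rcases le_total 0 (s 1) with hj | hj
    · rw [abs_of_nonneg hi, abs_of_nonneg hj] at hsum
      refine ⟨0, 2, ![0, -2, -1], s 0, by decide, by decide, by linarith, by linarith, ?_, ?_, ?_⟩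
      · intro i
        fin_cases i <;> simp [toV, st3] <;> linarith
      · simp [st3, Fin.sum_univ_three]
      · intro c hc1 hc2
        fin_cases c <;> simp_all [st3, Fin.sum_univ_three]
    · rw [abs_of_nonneg hi, abs_of_nonpos hj] at hsum
      refine ⟨0, 3, ![-2, 0, -1], s 0, by decide, by decide, by linarith, by linarith, ?_, ?_, ?_⟩
      · intro i
        fin_cases i <;> simp [toV, st3] <;> linarith
      · simp [st3, Fin.sum_univ_three]
      · intro c hc1 hc2
        fin_cases c <;> simp_all [st3, Fin.sum_univ_three]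
    · rw [abs_of_nonpos hi, abs_of_nonneg hj] at hsum
      refine ⟨1, 2, ![2, 0, 1], -s 0, by decide, by decide, by linarith, by linarith, ?_, ?_, ?_⟩
      · intro i
        fin_cases i <;> simp [toV, st3] <;> linarith
      · simp [st3, Fin.sum_univ_three]
      · intro c hc1 hc2
        fin_cases c <;> simp_all [st3, Fin.sum_univ_three]
    · rw [abs_of_nonpos hi, abs_of_nonpos hj] at hsum
      refine ⟨1, 3, ![0, 2, 1], -s 0, by decide, by decide, by linarith, by linarith, ?_, ?_, ?_⟩
      · intro i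
        fin_cases i <;> simp [toV, st3] <;> linarith
      · simp [st3, Fin.sum_univ_three]
      · intro c hc1 hc2
        fin_cases c <;> simp_all [st3, Fin.sum_univ_three]

theorem exists_erg_gibbs (hDC2 : DCofInv st2) (hG2 : ThmG st2) (hDC3 : DCofInv st3)
    (hG3 : ThmG st3) (s : Fin 3 → ℝ) (hs : s ∈ octa) :
    ∃ ν : Measure (V 3 → Fin 6), Inv (Cfg st3) ν ∧ mean (chg st3) ν = toV s ∧
      hent ν = Ethree s ∧ Erg ν ∧
      ∀ (F : Finset (V 3)) (a b : V 3 → Fin 6), Same st3 F a b → ν.map (pswap F a b) = ν := by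
  by_cases hE : s ∈ octaEdges
  · obtain ⟨a, b, l, t, hab, hst, h0, h1, hm, heq, hlt⟩ := edge_letters s hE
    have hinv := line_inv st3 a b t h0 h1
    haveI := hinv.prob
    have hmean : mean (chg st3) (lineMeas st3 a b t) = toV s := by
      funext i
      rw [line_mean st3 a b hab t h0 h1 i, hm i]
    refine ⟨lineMeas st3 a b t, hinv, hmean, ?_, line_erg (by norm_num) st3 a b t h0 h1, ?_⟩
    · have h2 := le_emax st3 (lineMeas st3 a b t) hinv
      rw [hmean] at h2
      have h3 : Emax st3 (toV s) = 0 := ethree_edges s hE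
      have h4 := hent_nonneg (lineMeas st3 a b t)
      rw [ethree_edges s hE]
      linarith
    · intro F p q hpq
      have h2 : pswap F p q =ᵐ[lineMeas st3 a b t] id := by
        filter_upwards [hinv.supp, line_supp st3 a b t h0 h1] with ω hω hl
        exact edge_pswap st3 a b hst l heq hlt ω hω hl.1 F p q hpq
      rw [Measure.map_congr h2, Measure.map_id]
  · have hs' : s ∈ octa \ octaEdges := ⟨hs, hE⟩
    have hf : toV s ∈ Feas st3 := by
      rw [feas3, Set.mem_ofPred_eq, Strict3Aux.nV_toV]
      exact hs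
    obtain ⟨ν, hinv, hmean, hent, herg⟩ := exists_erg_max (by norm_num) st3 (toV s) hf
      (strictAt3 (strict3 hDC2 hG2 hDC3 hG3) s hs')
    refine ⟨ν, hinv, hmean, hent, herg, fun F a b h => ?_⟩
    exact vp_cfg st3 ν hinv (by rw [hmean, hent]) F a b h

end Helper15.DE
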