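import Pool.Agent.Helper10.DE.Y.Defs
import Pool.Agent.Helper10.DE.X.Feas

/-!
# DE XI.1  Extreme and ergodic maximizers

`K = {ν | Inv (Cfg st) ν, mean (chg st) ν = s, hent ν = Emax st s}` (nonempty: `emax_attained`).
`exists_extreme_max`.  Let `C_0, C_1, ..` enumerate the (countably many) cylinders
`{ω | ∀ x : F, ω x = a x}`, `Ψ ν = ∑' j, 2^(-j) (ν.real C_j)²` (an `Encodable`/`Countable` index type, or
`∑'` over the cylinders with summable positive weights).  `K` is sequentially compact: a sequence in `K`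
has a subsequence with `CylTo` a probability measure `ν` (`seq_compact`), which is in `K`: `inv_lim`,
`mean_tendsto`, `Emax st s ≤ hent ν` (`hent_usc`) and `≤` by `le_emax`.  Along it `Ψ` converges
(`tendsto_tsum_of_dominated_convergence`).  So `Ψ` has a maximizer `ν` on `K`.  If `ν = mix t ν₁ ν₂` with
`ν₁, ν₂ ∈ K`, `0 < t < 1` and `ν₁ ≠ ν₂`, then some cylinder has different probabilities (`cyl_ext`), so by
strict convexity of `x²` `Ψ ν < t Ψ ν₁ + (1 - t) Ψ ν₂ ≤ Ψ ν`: contradiction.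
`exists_erg_max`.  Let `B` be invariant, measurable, `ν B ≠ 0`, `ν B ≠ 1`.  Then `ν Bᶜ ≠ 0`, `t = ν.real B` in
`(0,1)`, `ν = mix t (ν[|B]) (ν[|Bᶜ])` (`cond_mix`), both conditioned measures are invariant (`inv_cond`);
with means `x, y`: `s = t x + (1 - t) y` (`mean_mix`) and
`Emax s = hent ν = t hent (ν[|B]) + (1 - t) hent (ν[|Bᶜ]) ≤ t Emax x + (1 - t) Emax y` (`hent_mix`, `le_emax`), so
`x = y = s` by `StrictAt` and then both entropies are `Emax st s` (they are `≤`, and the average is `=`).  So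
both are in `K`, hence equal, but `ν[|B] B = 1` and `ν[|Bᶜ] B = 0`.
-/

noncomputable section

open MeasureTheory Filter Topology ProbabilityTheory

namespace Helper15.DE

variable {d : ℕ} {A : Type} [Fintype A] [MeasurableSpace A] [MeasurableSingletonClass A]

namespace ErgMaxAux

/-- the index type of all cylinders -/
abbrev Cyl (d : ℕ) (A : Type) := Σ F : Finset (V d), (F → A)

instance (d : ℕ) (A : Type) [Fintype A] : Countable (Cyl d A) := inferInstance

/-- probability of a cylinder -/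
def pc (ν : Measure (V d → A)) (i : Cyl d A) : ℝ := ν.real {ω | ∀ x : i.1, ω x = i.2 x}

/-- the strictly convex functional -/
def Psi (w : Cyl d A → ℝ) (ν : Measure (V d → A)) : ℝ := ∑' i, w i * (pc ν i) ^ 2

omit [Fintype A] [MeasurableSingletonClass A] in
theorem pc_nonneg (ν : Measure (V d → A)) (i : Cyl d A) : 0 ≤ pc ν i := measureReal_nonneg

omit [Fintype A] [MeasurableSingletonClass A] in
theorem pc_le (ν : Measure (V d → A)) [IsProbabilityMeasure ν] (i : Cyl d A) : pc ν i ≤ 1 :=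
  measureReal_le_one

omit [Fintype A] [MeasurableSingletonClass A] in
theorem term_le (w : Cyl d A → ℝ) (hw : ∀ i, 0 ≤ w i) (ν : Measure (V d → A))
    [IsProbabilityMeasure ν] (i : Cyl d A) : ‖w i * (pc ν i) ^ 2‖ ≤ w i := by
  have h1 := pc_nonneg ν i
  have h2 := pc_le ν i
  rw [Real.norm_of_nonneg (mul_nonneg (hw i) (by positivity))]
  have h3 : (pc ν i) ^ 2 ≤ 1 := by nlinarith
  nlinarith [hw i]

omit [Fintype A] [MeasurableSingletonClass A] in
theorem summ (w : Cyl d A → ℝ) (hw : ∀ i, 0 ≤ w i) (hs : Summable w) (ν : Measure (V d → A))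
    [IsProbabilityMeasure ν] : Summable fun i => w i * (pc ν i) ^ 2 :=
  Summable.of_norm_bounded hs (term_le w hw ν)

omit [Fintype A] [MeasurableSingletonClass A] in
theorem Psi_le (w : Cyl d A → ℝ) (hw : ∀ i, 0 ≤ w i) (hs : Summable w) (ν : Measure (V d → A))
    [IsProbabilityMeasure ν] : Psi w ν ≤ ∑' i, w i :=
  (summ w hw hs ν).tsum_le_tsum (fun i => (Real.le_norm_self _).trans (term_le w hw ν i)) hs

omit [Fintype A] [MeasurableSingletonClass A] in
theorem Psi_tendsto (w : Cyl d A → ℝ) (hw : ∀ i, 0 ≤ w i) (hs : Summable w)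
    (μ : ℕ → Measure (V d → A)) (ν : Measure (V d → A)) (hμ : ∀ n, IsProbabilityMeasure (μ n))
    (h : CylTo μ ν) : Tendsto (fun n => Psi w (μ n)) atTop (𝓝 (Psi w ν)) := by
  refine tendsto_tsum_of_dominated_convergence hs (fun i => ?_)
    (Filter.Eventually.of_forall fun n i => ?_)
  · exact ((h i.1 i.2).pow 2).const_mul (w i)
  · haveI := hμ n
    exact term_le w hw (μ n) i

theorem Psi_mix (w : Cyl d A → ℝ) (hw : ∀ i, 0 < w i) (hs : Summable w) (t : ℝ) (h0 : 0 < t)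
    (h1 : t < 1) (ν₁ ν₂ : Measure (V d → A)) [IsProbabilityMeasure ν₁] [IsProbabilityMeasure ν₂]
    (e1 : Psi w ν₁ ≤ Psi w (mix t ν₁ ν₂)) (e2 : Psi w ν₂ ≤ Psi w (mix t ν₁ ν₂)) : ν₁ = ν₂ := by
  have hw' : ∀ i, 0 ≤ w i := fun i => (hw i).le
  haveI := mix_prob t h0.le h1.le ν₁ ν₂
  have hm : ∀ i, pc (mix t ν₁ ν₂) i = t * pc ν₁ i + (1 - t) * pc ν₂ i := fun i =>
    mix_real t h0.le h1.le ν₁ ν₂ _
  have s1 := summ w hw' hs ν₁
  have s2 := summ w hw' hs ν₂
  have s3 := summ w hw' hs (mix t ν₁ ν₂)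
  have hterm : ∀ i, w i * (pc ν₁ i - pc ν₂ i) ^ 2
      = (t * (1 - t))⁻¹ * (t * (w i * (pc ν₁ i) ^ 2) + (1 - t) * (w i * (pc ν₂ i) ^ 2)
        - w i * (pc (mix t ν₁ ν₂) i) ^ 2) := by
    intro i
    rw [hm]
    have ht : t * (1 - t) ≠ 0 := by
      have : 0 < t * (1 - t) := mul_pos h0 (by linarith)
      exact this.ne'
    rw [eq_inv_mul_iff_mul_eq₀ ht]
    ring
  have s4 : Summable fun i => w i * (pc ν₁ i - pc ν₂ i) ^ 2 := by
    simp_rw [hterm]
    exact ((((s1.mul_left t).add (s2.mul_left (1 - t))).sub s3).mul_left _)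
  have hsum : ∑' i, w i * (pc ν₁ i - pc ν₂ i) ^ 2
      = (t * (1 - t))⁻¹ * (t * Psi w ν₁ + (1 - t) * Psi w ν₂ - Psi w (mix t ν₁ ν₂)) := by
    simp_rw [hterm]
    rw [tsum_mul_left, ((s1.mul_left t).add (s2.mul_left (1 - t))).tsum_sub s3,
      (s1.mul_left t).tsum_add (s2.mul_left (1 - t)), tsum_mul_left, tsum_mul_left]
    rfl
  have hle : ∑' i, w i * (pc ν₁ i - pc ν₂ i) ^ 2 ≤ 0 := by
    rw [hsum]
    have hp : 0 < t * (1 - t) := mul_pos h0 (by linarith)
    refine mul_nonpos_of_nonneg_of_nonpos (inv_nonneg.2 hp.le) ?_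
    have a1 := mul_le_mul_of_nonneg_left e1 h0.le
    have a2 := mul_le_mul_of_nonneg_left e2 (by linarith : (0 : ℝ) ≤ 1 - t)
    linarith
  have hz : ∀ i, w i * (pc ν₁ i - pc ν₂ i) ^ 2 = 0 := by
    intro i
    have hn : ∀ j, 0 ≤ w j * (pc ν₁ j - pc ν₂ j) ^ 2 := fun j =>
      mul_nonneg (hw' j) (sq_nonneg _)
    have := s4.le_tsum i fun j _ => hn j
    exact le_antisymm (this.trans hle) (hn i)
  refine cyl_ext ν₁ ν₂ fun F a => ?_
  have h2 := hz ⟨F, a⟩
  have h3 : (pc ν₁ (⟨F, a⟩ : Cyl d A) - pc ν₂ ⟨F, a⟩) ^ 2 = 0 :=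
    (mul_eq_zero.1 h2).resolve_left (hw _).ne'
  have h4 := pow_eq_zero_iff (two_ne_zero) |>.1 h3
  exact sub_eq_zero.1 h4

end ErgMaxAux

open ErgMaxAux

theorem exists_extreme_max (st : A → V d) (s : Fin d → ℝ) (hs : s ∈ Feas st) :
    ∃ ν, Inv (Cfg st) ν ∧ mean (chg st) ν = s ∧ hent ν = Emax st s ∧
      ∀ (ν₁ ν₂ : Measure (V d → A)) (t : ℝ), 0 < t → t < 1 →
        Inv (Cfg st) ν₁ → mean (chg st) ν₁ = s → hent ν₁ = Emax st s →
        Inv (Cfg st) ν₂ → mean (chg st) ν₂ = s → hent ν₂ = Emax st s →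
        mix t ν₁ ν₂ = ν → ν₁ = ν₂ := by
  obtain ⟨w0, hw0, c, hc, -⟩ := NNReal.exists_pos_sum_of_countable (one_ne_zero) (Cyl d A)
  let w : Cyl d A → ℝ := fun i => (w0 i : ℝ)
  have hw : ∀ i, 0 < w i := fun i => by exact_mod_cast hw0 i
  have hws : Summable w := NNReal.summable_coe.2 hc.summable
  let S : Set ℝ := {r | ∃ μ, Inv (Cfg st) μ ∧ mean (chg st) μ = s ∧ hent μ = Emax st s ∧
    Psi w μ = r}
  have hS : S.Nonempty := by
    obtain ⟨μ, h1, h2, h3⟩ := emax_attained st s hs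
    exact ⟨_, μ, h1, h2, h3, rfl⟩
  have hb : BddAbove S := by
    refine ⟨∑' i, w i, ?_⟩
    rintro _ ⟨μ, h1, -, -, rfl⟩
    haveI := h1.prob
    exact Psi_le w (fun i => (hw i).le) hws μ
  obtain ⟨u, -, hu, hmem⟩ := exists_seq_tendsto_sSup hS hb
  choose μ h1 h2 h3 h4 using hmem
  obtain ⟨ν, hν, φ, hφ, hcyl⟩ := seq_compact μ fun n => (h1 n).prob
  have hI : Inv (Cfg st) ν := inv_lim _ (closed_cfg st) _ ν (fun n => h1 (φ n)) hν hcyl
  have hM : mean (chg st) ν = s := by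
    ext i
    have h5 := mean_tendsto (chg st) _ ν (fun n => (h1 (φ n)).prob) hν hcyl i
    simp_rw [h2] at h5
    exact tendsto_nhds_unique h5 tendsto_const_nhds
  have hE : hent ν = Emax st s := by
    refine le_antisymm ?_ ?_
    · have := le_emax st ν hI
      rwa [hM] at this
    · exact hent_usc _ ν (fun n => (h1 (φ n)).prob) hν hcyl (fun _ => Emax st s) _
        tendsto_const_nhds fun n => (h3 (φ n)).ge
  have hP : Psi w ν = sSup S := by
    have h5 := Psi_tendsto w (fun i => (hw i).le) hws _ ν (fun n => (h1 (φ n)).prob) hcyl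
    simp_rw [h4] at h5
    exact tendsto_nhds_unique h5 (hu.comp hφ.tendsto_atTop)
  refine ⟨ν, hI, hM, hE, ?_⟩
  intro ν₁ ν₂ t h0 h1' i1 m1 e1 i2 m2 e2 hmix
  haveI := i1.prob
  haveI := i2.prob
  refine Psi_mix w hw hws t h0 h1' ν₁ ν₂ ?_ ?_
  · rw [hmix, hP]
    exact le_csSup hb ⟨ν₁, i1, m1, e1, rfl⟩
  · rw [hmix, hP]
    exact le_csSup hb ⟨ν₂, i2, m2, e2, rfl⟩

theorem exists_erg_max (hd : 1 ≤ d) (st : A → V d) (s : Fin d → ℝ) (hs : s ∈ Feas st)
    (hstrict : StrictAt st s) :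
    ∃ ν, Inv (Cfg st) ν ∧ mean (chg st) ν = s ∧ hent ν = Emax st s ∧ Erg ν := by
  obtain ⟨ν, hI, hM, hE, hext⟩ := exists_extreme_max st s hs
  refine ⟨ν, hI, hM, hE, ?_⟩
  haveI := hI.prob
  intro B hB hinv
  by_contra hcon
  push Not at hcon
  obtain ⟨hB0, hB1⟩ := hcon
  have hBc : MeasurableSet Bᶜ := hB.compl
  have hc0 : ν Bᶜ ≠ 0 := by
    intro h
    exact hB1 ((prob_compl_eq_zero_iff hB).1 h)
  have hinvc : ∀ v, shift v ⁻¹' Bᶜ = Bᶜ := fun v => by rw [Set.preimage_compl, hinv v]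
  have hmix := cond_mix ν B hB hB0 hc0
  have i1 := inv_cond (Cfg st) ν hI B hB hinv hB0
  have i2 := inv_cond (Cfg st) ν hI Bᶜ hBc hinvc hc0
  haveI := i1.prob
  haveI := i2.prob
  have ht0 : 0 < ν.real B := by
    rw [measureReal_def]
    exact ENNReal.toReal_pos hB0 (measure_ne_top _ _)
  have ht1 : ν.real B < 1 := by
    refine lt_of_le_of_ne measureReal_le_one ?_
    intro h
    apply hB1
    rw [measureReal_def] at h
    rw [← ENNReal.ofReal_toReal (measure_ne_top ν B), h, ENNReal.ofReal_one]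
  have hmean := mean_mix (chg st) (ν.real B) ht0.le ht1.le (ν[|B]) (ν[|Bᶜ])
  rw [hmix, hM] at hmean
  have hent' := hent_mix hd (ν.real B) ht0.le ht1.le (ν[|B]) (ν[|Bᶜ]) i1.map i2.map
  rw [hmix, hE] at hent'
  have l1 := le_emax st _ i1
  have l2 := le_emax st _ i2
  have h1t : 0 < 1 - ν.real B := by linarith
  have hxy : mean (chg st) (ν[|B]) = mean (chg st) (ν[|Bᶜ]) := by
    by_contra hne
    have := hstrict _ ⟨_, i1, rfl⟩ _ ⟨_, i2, rfl⟩ (ν.real B) ht0 ht1 hmean hne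
    have a1 := mul_le_mul_of_nonneg_left l1 ht0.le
    have a2 := mul_le_mul_of_nonneg_left l2 h1t.le
    linarith
  have hm1 : mean (chg st) (ν[|B]) = s := by
    rw [hmean, ← hxy, ← add_smul]
    simp
  have hm2 : mean (chg st) (ν[|Bᶜ]) = s := hxy ▸ hm1
  rw [hm1] at l1
  rw [hm2] at l2
  have e1 : hent (ν[|B]) = Emax st s := by
    refine le_antisymm l1 ?_
    by_contra hlt
    push Not at hlt
    have a1 := mul_lt_mul_of_pos_left hlt ht0
    have a2 := mul_le_mul_of_nonneg_left l2 h1t.le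
    nlinarith
  have e2 : hent (ν[|Bᶜ]) = Emax st s := by
    refine le_antisymm l2 ?_
    by_contra hlt
    push Not at hlt
    have a1 := mul_lt_mul_of_pos_left hlt h1t
    have a2 := mul_le_mul_of_nonneg_left l1 ht0.le
    nlinarith
  have heq := hext (ν[|B]) (ν[|Bᶜ]) (ν.real B) ht0 ht1 i1 hm1 e1 i2 hm2 e2 hmix
  have hb1 : (ν[|B]) B = 1 := by
    rw [cond_apply hB, Set.inter_self]
    exact ENNReal.inv_mul_cancel hB0 (measure_ne_top _ _)
  have hb2 : (ν[|Bᶜ]) B = 0 := by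
    rw [cond_apply hBc, Set.compl_inter_self, measure_empty, mul_zero]
  rw [heq, hb2] at hb1
  exact zero_ne_one hb1

end Helper15.DE
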